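import Pool.Agent.Helper4_Nets.Defs

/-!
Blueprint definitions, manifold part, for the density of stationary geodesic nets
(MP_f059bd_gt, S14193).
-/

set_option autoImplicit false

open Set Filter Topology Metric Bundle
open scoped ContDiff Manifold

namespace Pool.Agent.Helper4Nets

section

variable (S : Type) [MetricSpace S] [ChartedSpace (EuclideanSpace ℝ (Fin 2)) S]
    [IsManifold 𝓘(ℝ, EuclideanSpace ℝ (Fin 2)) ∞ S]
    [RiemannianBundle (fun x : S => TangentSpace 𝓘(ℝ, EuclideanSpace ℝ (Fin 2)) x)]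

variable {S}

/-- The Riemannian metric read in the chart `c` at the point `q`. -/
noncomputable def chartMetric (c : OpenPartialHomeomorph S E2) (q v w : E2) : ℝ :=
  inner ℝ (mfderiv 𝓘(ℝ, E2) 𝓘(ℝ, EuclideanSpace ℝ (Fin 2)) c.symm q v :
      TangentSpace 𝓘(ℝ, EuclideanSpace ℝ (Fin 2)) (c.symm q))
    (mfderiv 𝓘(ℝ, E2) 𝓘(ℝ, EuclideanSpace ℝ (Fin 2)) c.symm q w :
      TangentSpace 𝓘(ℝ, EuclideanSpace ℝ (Fin 2)) (c.symm q))

/-- velocity of a path at time `t`, in the notation of the frozen statement -/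
noncomputable def vel (γ : ℝ → S) (t : ℝ) : TangentSpace 𝓘(ℝ, EuclideanSpace ℝ (Fin 2)) (γ t) :=
  mfderivWithin 𝓘(ℝ, ℝ) 𝓘(ℝ, EuclideanSpace ℝ (Fin 2)) γ (Set.Icc 0 1) t (1 : ℝ)

variable (S)

/-- OUTPUT OF PART I (modules M2, M3): a good atlas, made of charts of the manifold, such that
points at distance `< r` are joined by a minimal geodesic, differentiable at its end points and
with the first variation formula for the distance. -/
def PartI : Prop :=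
  ∃ A : GoodAtlas S, (∀ i, ∃ z : S, A.c i = chartAt (EuclideanSpace ℝ (Fin 2)) z) ∧
    ∀ x y : S, x ≠ y → dist x y < A.r → ∃ γ : ℝ → S, γ 0 = x ∧ γ 1 = y ∧
      (∀ s ∈ Icc (0 : ℝ) 1, ∀ t ∈ Icc (0 : ℝ) 1, dist (γ s) (γ t) = dist x y * |s - t|) ∧
      MDifferentiableWithinAt 𝓘(ℝ, ℝ) 𝓘(ℝ, EuclideanSpace ℝ (Fin 2)) γ (Icc 0 1) 0 ∧
      MDifferentiableWithinAt 𝓘(ℝ, ℝ) 𝓘(ℝ, EuclideanSpace ℝ (Fin 2)) γ (Icc 0 1) 1 ∧
      ‖vel γ 0‖ = dist x y ∧ ‖vel γ 1‖ = dist x y ∧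
      (∀ i, x ∈ (A.c i).source → ∀ w : TangentSpace 𝓘(ℝ, EuclideanSpace ℝ (Fin 2)) (γ 0),
        fderiv ℝ (fun q => dist ((A.c i).symm q) y) (A.c i x)
          (mfderiv 𝓘(ℝ, EuclideanSpace ℝ (Fin 2)) 𝓘(ℝ, E2) (A.c i) (γ 0) w : E2) * dist x y =
        - inner ℝ (vel γ 0) w) ∧
      (∀ i, y ∈ (A.c i).source → ∀ w : TangentSpace 𝓘(ℝ, EuclideanSpace ℝ (Fin 2)) (γ 1),
        fderiv ℝ (fun q => dist x ((A.c i).symm q)) (A.c i y)
          (mfderiv 𝓘(ℝ, EuclideanSpace ℝ (Fin 2)) 𝓘(ℝ, E2) (A.c i) (γ 1) w : E2) * dist x y =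
        inner ℝ (vel γ 1) w)

end

end Pool.Agent.Helper4Nets
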