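import Pool.Agent.Helper4_Nets.M4.P1
import Pool.Agent.Helper4_Nets.M4.P7
import Pool.Agent.Helper27_Nets.P2
import Pool.Agent.Helper43_Nets.P3
import Pool.Agent.Helper83_Nets.P4
import Pool.Agent.Helper68_Nets.P5
import Pool.Agent.Helper52_Nets.P6
import Pool.Agent.Helper83_Nets.AbstractNetProof
import Pool.Agent.Helper52_Nets.Compactness
import Pool.Agent.Helper43_Nets.Equilibrium
import Pool.Agent.Helper43_Nets.MaxRank
import Pool.Agent.Helper43_Nets.Final
import Pool.Agent.Helper67_Nets.Final
import Pool.Agent.Helper27_Nets.Main

/-!
Assembly of the density of stationary geodesic nets (MP_f059bd_gt, S14193) from the modules.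
-/

set_option autoImplicit false

open Set Filter Topology Metric Bundle
open scoped ContDiff Manifold

namespace Pool.Agent.Helper4Nets

theorem localRigidity : LocalRigidity := localRigidity_of p1 p2 p3 p4 p5 p6 p7

theorem abstractNet_all {S : Type} [MetricSpace S] [CompactSpace S] [ConnectedSpace S] [Infinite S]
    (A : GoodAtlas S) : AbstractNet A :=
  abstractNet (compactness localRigidity directions A (existsEquilibrium A)) maxRank
    (existsEquilibrium A) directions

end Pool.Agent.Helper4Nets
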