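import Mathlib

/-!
Blueprint definitions for the density of stationary geodesic nets (MP_f059bd_gt, S14193).
-/

set_option autoImplicit false

open Set Filter Topology Metric
open scoped ContDiff

namespace Pool.Agent.Helper4Nets

/-- The model space, the Euclidean plane. -/
abbrev E2 := EuclideanSpace ℝ (Fin 2)

/-- The two-point function `ρ` as a function on `E2 × E2`. -/
def unc (ρ : E2 → E2 → ℝ) (p : E2 × E2) : ℝ := ρ p.1 p.2

/-- Half the square of the two-point function `ρ`. -/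
noncomputable def sg (ρ : E2 → E2 → ℝ) (p : E2 × E2) : ℝ := ρ p.1 p.2 ^ 2 / 2

/-- Second derivative of a real function on a normed space. -/
noncomputable def D2 {X : Type*} [NormedAddCommGroup X] [NormedSpace ℝ X] (f : X → ℝ) (x : X) :
    X →L[ℝ] X →L[ℝ] ℝ := fderiv ℝ (fderiv ℝ f) x

/-- Local properties of a Riemannian distance `ρ`, read in a chart, near the point `z`:
`B` is an open set containing the ball of radius `s` about `z`. -/
structure NiceLocal (ρ : E2 → E2 → ℝ) (z : E2) (s : ℝ) (B : Set E2) : Prop where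
  s_pos : 0 < s
  isOpen : IsOpen B
  ball_sub : ball z s ⊆ B
  self : ∀ x, ρ x x = 0
  symm : ∀ x y, ρ x y = ρ y x
  nonneg : ∀ x y, 0 ≤ ρ x y
  tri : ∀ x y w, ρ x w ≤ ρ x y + ρ y w
  pos : ∀ x ∈ B, ∀ y ∈ B, x ≠ y → 0 < ρ x y
  /-- `ρ` is compatible with the topology -/
  near : ∀ m ∈ B, ∀ δ > 0, ∃ ε > 0, ∀ q ∈ B, ρ m q < ε → ‖q - m‖ < δ
  /-- `ρ²/2` is `C⁴` on `B × B`, diagonal included -/
  smooth : ContDiffOn ℝ 4 (sg ρ) (B ×ˢ B)
  /-- the Riemannian metric `g_x(v,w) = D²(ρ²/2)(x,x)((0,v),(0,w))` is positive definite -/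
  posdef : ∀ x ∈ B, ∀ v : E2, v ≠ 0 → 0 < D2 (sg ρ) (x, x) (0, v) (0, v)
  /-- eikonal equation: the gradient `θ` of `ρ²/2` in the second variable has `g`-norm `ρ` -/
  eik : ∀ x ∈ B, ∀ y ∈ B, ∃ θ : E2,
    (∀ w, fderiv ℝ (sg ρ) (x, y) (0, w) = D2 (sg ρ) (y, y) (0, θ) (0, w)) ∧
      D2 (sg ρ) (y, y) (0, θ) (0, θ) = ρ x y ^ 2
  /-- points on the minimal geodesic -/
  seg : ∀ x ∈ ball z s, ∀ y ∈ ball z s, ∀ t ∈ Icc (0 : ℝ) 1, ∃ m ∈ B,
    ρ x m = t * ρ x y ∧ ρ m y = (1 - t) * ρ x y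
  /-- the geodesic from `p` to `m` can be prolonged beyond `m` -/
  refl : ∀ p ∈ ball z s, ∀ m ∈ ball z s, ∃ q ∈ B, ρ m q = ρ p m ∧ ρ p q = 2 * ρ p m

/-- MODULE M4 (local rigidity). -/
def LocalRigidity : Prop :=
  ∀ (ρ : E2 → E2 → ℝ) (z : E2) (s : ℝ) (B : Set E2), NiceLocal ρ z s B →
    ∀ ξ η : E2 → E2,
      (∀ x ∈ B, ∃ C : ℝ, ∀ᶠ y in 𝓝 x, ‖ξ y‖ ≤ C ∧ ‖η y‖ ≤ C) →
      (∀ x ∈ B, ∀ y ∈ B, x ≠ y →
        D2 (unc ρ) (x, y) (ξ x, ξ y) (ξ x, ξ y) = fderiv ℝ (unc ρ) (x, y) (η x, η y)) →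
      ∃ s' > 0, ∃ a : ℝ, ∀ x ∈ ball z s', ∀ y ∈ ball z s', x ≠ y →
        fderiv ℝ (unc ρ) (x, y) (ξ x, ξ y) = a * ρ x y

/-- MODULE M4' (all directions occur): every covector at `m` is, up to a positive factor, the
derivative of `ρ p` at `m` for some `p` as close to `m` as we like. -/
def Directions : Prop :=
  ∀ (ρ : E2 → E2 → ℝ) (z : E2) (s : ℝ) (B : Set E2), NiceLocal ρ z s B →
    ∀ m ∈ B, ∀ l : E2 →L[ℝ] ℝ, l ≠ 0 → ∀ δ > 0, ∃ p ∈ B, p ≠ m ∧ ‖p - m‖ < δ ∧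
      ∃ t > 0, ∀ w, fderiv ℝ (unc ρ) (p, m) (0, w) = t * l w

/-- MODULE M2 (short geodesics of a smooth Riemannian metric `g` on the plane, near `z`).
`γ x y` is the geodesic from `x` to `y` on `[0,1]`, `γ' x y` its velocity, `En (x,y)` its energy
(which will turn out to be half the squared distance). -/
def ShortGeodesics : Prop :=
  ∀ (g : E2 → E2 →L[ℝ] E2 →L[ℝ] ℝ), ContDiff ℝ ∞ g → (∀ x v w, g x v w = g x w v) →
    (∀ x v, v ≠ 0 → 0 < g x v v) → ∀ (z : E2) (R : ℝ), 0 < R →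
    ∃ (δ : ℝ) (γ γ' : E2 → E2 → ℝ → E2) (En : E2 × E2 → ℝ), 0 < δ ∧ δ ≤ R ∧
      ContDiffOn ℝ 4 En (ball z δ ×ˢ ball z δ) ∧
      (∀ x ∈ ball z δ, ∀ y ∈ ball z δ,
        γ x y 0 = x ∧ γ x y 1 = y ∧
        (∀ t ∈ Icc (0 : ℝ) 1, γ x y t ∈ ball z R) ∧
        (∀ t ∈ Icc (0 : ℝ) 1, HasDerivWithinAt (γ x y) (γ' x y t) (Icc 0 1) t) ∧
        ContinuousOn (γ' x y) (Icc 0 1) ∧
        (∀ t ∈ Icc (0 : ℝ) 1, g (γ x y t) (γ' x y t) (γ' x y t) = 2 * En (x, y)) ∧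
        (∀ u v, fderiv ℝ En (x, y) (u, v) = g y (γ' x y 1) v - g x (γ' x y 0) u)) ∧
      (∀ x ∈ ball z δ, En (x, x) = 0 ∧ ∀ u v u' v', D2 En (x, x) (u, v) (u', v') =
        g x (u - v) (u' - v')) ∧
      ∃ δ' > 0, ∀ p ∈ ball z δ', ∀ m ∈ ball z δ', ∃ q ∈ ball z δ, γ p q (1 / 2) = m

/-- A finite atlas of a metric space `S` with the properties needed for the argument. -/
structure GoodAtlas (S : Type) [MetricSpace S] where
  ι : Type
  fin : Fintype ι
  c : ι → OpenPartialHomeomorph S E2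
  K : ι → Set S
  K_closed : ∀ i, IsClosed (K i)
  K_sub : ∀ i, K i ⊆ (c i).source
  K_cover : ∀ x, ∃ i, x ∈ K i
  r : ℝ
  r_pos : 0 < r
  /-- transition maps are `C⁴` -/
  trans : ∀ i j, ContDiffOn ℝ 4 (fun q => c j ((c i).symm q))
    ((c i).target ∩ (c i).symm ⁻¹' (c j).source)
  /-- the distance function is `C⁴` at pairs of points at distance in `(0, r)` -/
  smooth : ∀ i j, ∀ x ∈ (c i).target, ∀ y ∈ (c j).target,
    0 < dist ((c i).symm x) ((c j).symm y) → dist ((c i).symm x) ((c j).symm y) < r →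
    ContDiffAt ℝ 4 (fun p : E2 × E2 => dist ((c i).symm p.1) ((c j).symm p.2)) (x, y)
  /-- inverse charts are locally Lipschitz -/
  lip : ∀ i, ∀ x ∈ (c i).target, ∃ C : ℝ, ∃ V ∈ 𝓝 x, ∀ y ∈ V, ∀ y' ∈ V,
    dist ((c i).symm y) ((c i).symm y') ≤ C * ‖y - y'‖
  /-- close points have a midpoint -/
  mid : ∀ x y : S, dist x y < r → ∃ m, dist x m = dist x y / 2 ∧ dist m y = dist x y / 2
  /-- every point has a nice neighbourhood in some chart -/
  nice : ∀ z : S, ∃ i, z ∈ (c i).source ∧ ∃ s B, B ⊆ (c i).target ∧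
    (∀ x ∈ B, ∀ y ∈ B, dist ((c i).symm x) ((c i).symm y) < r) ∧
    NiceLocal (fun x y => dist ((c i).symm x) ((c i).symm y)) (c i z) s B

attribute [instance] GoodAtlas.fin

variable {S : Type} [MetricSpace S]

/-- The distance function read in the charts `i` and `j`. -/
noncomputable def GoodAtlas.ell (A : GoodAtlas S) (i j : A.ι) (p : E2 × E2) : ℝ :=
  dist ((A.c i).symm p.1) ((A.c j).symm p.2)

/-- Killing fields, in the form: vector fields (given in every chart) along which all distances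
between close points are stationary. -/
noncomputable def GoodAtlas.Killing (A : GoodAtlas S) : Submodule ℝ (A.ι → E2 → E2) where
  carrier := {k | ∀ i j, ∀ x ∈ (A.c i).target, ∀ y ∈ (A.c j).target, 0 < A.ell i j (x, y) →
    A.ell i j (x, y) < A.r → fderiv ℝ (A.ell i j) (x, y) (k i x, k j y) = 0}
  add_mem' := by
    intro k k' hk hk' i j x hx y hy h0 h1
    have := hk i j x hx y hy h0 h1
    have h2 := hk' i j x hx y hy h0 h1
    have e : ((k + k') i x, (k + k') j y) = (k i x, k j y) + (k' i x, k' j y) := rfl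
    rw [e, map_add, this, h2, add_zero]
  zero_mem' := by
    intro i j x hx y hy h0 h1
    have e : ((0 : A.ι → E2 → E2) i x, (0 : A.ι → E2 → E2) j y) = (0 : E2 × E2) := rfl
    rw [e, map_zero]
  smul_mem' := by
    intro t k hk i j x hx y hy h0 h1
    have := hk i j x hx y hy h0 h1
    have e : ((t • k) i x, (t • k) j y) = t • (k i x, k j y) := rfl
    rw [e, map_smul, this, smul_zero]

/-- A finite configuration of distinct points, each with a chart whose core contains it. -/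
structure Config (A : GoodAtlas S) where
  n : ℕ
  x : Fin n → S
  inj : Function.Injective x
  i : Fin n → A.ι
  mem : ∀ a, x a ∈ A.K (i a)

namespace Config

variable {A : GoodAtlas S} (C : Config A)

/-- coordinates of the points of the configuration -/
noncomputable def q (a : Fin C.n) : E2 := A.c (C.i a) (C.x a)

/-- first variation of the distance between the points `a` and `b` -/
noncomputable def d1 (a b : Fin C.n) (ξ : Fin C.n → E2) : ℝ :=
  fderiv ℝ (A.ell (C.i a) (C.i b)) (C.q a, C.q b) (ξ a, ξ b)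

/-- second variation of the distance between the points `a` and `b` -/
noncomputable def d2 (a b : Fin C.n) (ξ ζ : Fin C.n → E2) : ℝ :=
  D2 (A.ell (C.i a) (C.i b)) (C.q a, C.q b) (ξ a, ξ b) (ζ a, ζ b)

/-- `a b` is an edge (for the cutoff `r'`) -/
def edge (r' : ℝ) (a b : Fin C.n) : Prop := a ≠ b ∧ dist (C.x a) (C.x b) < r'

/-- restriction of a field to the configuration -/
noncomputable def restr (k : A.ι → E2 → E2) (a : Fin C.n) : E2 := k (C.i a) (C.q a)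

/-- the configuration is `ε`-dense -/
def dense (ε : ℝ) : Prop := ∀ z : S, ∃ a, dist z (C.x a) < ε

end Config

/-- MODULE M5 (minimisers of a repulsive energy give strictly positive stresses in equilibrium on
dense configurations). -/
def ExistsEquilibrium (A : GoodAtlas S) : Prop :=
  ∀ ε > 0, ∀ r' > 0, r' ≤ A.r → ∃ C : Config A, ∃ w : Fin C.n → Fin C.n → ℝ,
    C.dense ε ∧ (∀ a b, w a b = w b a) ∧ (∀ a b, C.edge r' a b → 0 < w a b) ∧
    (∀ a b, ¬ C.edge r' a b → w a b = 0) ∧ (∃ a b, C.edge r' a b) ∧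
    ∀ a, ∀ v : E2, ∑ b, w a b *
      fderiv ℝ (A.ell (C.i a) (C.i b)) (C.q a, C.q b) (v, 0) = 0

/-- MODULE M6 (linear algebra). -/
def MaxRank : Prop :=
  ∀ (T : Type) [AddCommGroup T] [Module ℝ T] [FiniteDimensional ℝ T] (e : Type) [Fintype e]
    (a : e → T →ₗ[ℝ] ℝ) (Q : e → T →ₗ[ℝ] T →ₗ[ℝ] ℝ),
    (∀ i x y, Q i x y = Q i y x) → ∀ w₀ : e → ℝ, (∀ i, 0 < w₀ i) →
    (∀ x, ∑ i, w₀ i * a i x = 0) →
    ∃ w : e → ℝ, (∀ i, 0 < w i) ∧ (∀ x, ∑ i, w i * a i x = 0) ∧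
      ∀ x, (∀ y, ∑ i, w i * Q i x y = 0) → ∃ y, ∀ i, Q i x x = a i y

/-- MODULE M7 (compactness). -/
def Compactness (A : GoodAtlas S) : Prop :=
  ∃ ε > 0, ∀ C : Config A, C.dense ε → ∀ N : Submodule ℝ (Fin C.n → E2),
    (∀ k ∈ A.Killing, C.restr k ∈ N) →
    (∀ ξ ∈ N, ∃ η : Fin C.n → E2, ∀ a b, C.edge A.r a b → C.d2 a b ξ ξ = C.d1 a b η) →
    ∀ ξ ∈ N, ∃ k ∈ A.Killing, C.restr k = ξ

/-- MODULE M8 (abstract nets with integer weights). -/
def AbstractNet (A : GoodAtlas S) : Prop :=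
  ∀ U : Set S, IsOpen U → U.Nonempty →
    ∃ (n : ℕ) (x : Fin n → S) (i : Fin n → A.ι) (k : Fin n → Fin n → ℕ),
      Function.Injective x ∧ (∀ a, x a ∈ (A.c (i a)).source) ∧ (∀ a b, k a b = k b a) ∧
      (∀ a b, 0 < k a b → a ≠ b ∧ dist (x a) (x b) < A.r) ∧ (∀ a, ∃ b, 0 < k a b) ∧
      (∀ a, ∀ v : E2, ∑ b, (k a b : ℝ) *
        fderiv ℝ (A.ell (i a) (i b)) (A.c (i a) (x a), A.c (i b) (x b)) (v, 0) = 0) ∧
      ∃ a, x a ∈ U ∧ ∃ b : Fin 3 → Fin n, (∀ m, 0 < k a (b m)) ∧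
        Pairwise fun m m' => ∃ v : E2,
          fderiv ℝ (A.ell (i a) (i (b m))) (A.c (i a) (x a), A.c (i (b m)) (x (b m))) (v, 0) ≠
          fderiv ℝ (A.ell (i a) (i (b m'))) (A.c (i a) (x a), A.c (i (b m')) (x (b m'))) (v, 0)

end Pool.Agent.Helper4Nets
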